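import Mathlib

/-!
# Strong amalgamation and the absence of algebraicity
-/

universe u v w

namespace Pool.Agent.X225.St

open FirstOrder FirstOrder.Language CategoryTheory

variable {L : FirstOrder.Language.{u, v}} {M : Type w} [L.Structure M]

/-- strong amalgamation -/
def StrongAmalgamation (K : Set (Bundled.{w} L.Structure)) : Prop :=
  ∀ (A B C : Bundled.{w} L.Structure) (f : A ↪[L] B) (g : A ↪[L] C), A ∈ K → B ∈ K → C ∈ K →
    ∃ (D : Bundled.{w} L.Structure) (f' : B ↪[L] D) (g' : C ↪[L] D), D ∈ K ∧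
      f'.comp f = g'.comp g ∧ Set.range f' ∩ Set.range g' = Set.range (f'.comp f)

variable (L M)

/-- no algebraicity -/
def NA : Prop :=
  ∀ (A : Finset M) (y : M) (Z : Finset M), y ∉ A → ∃ g : M ≃[L] M, (∀ a ∈ A, g a = a) ∧ g y ∉ Z

variable {L M}

theorem NA.multi (h : NA L M) (A Z Y : Finset M) (hY : ∀ y ∈ Y, y ∉ A) :
    ∃ g : M ≃[L] M, (∀ a ∈ A, g a = a) ∧ ∀ y ∈ Y, g y ∉ Z := by
  classical
  induction Y using Finset.induction_on with
  | empty => exact ⟨Language.Equiv.refl L M, fun _ _ => rfl, fun y hy => absurd hy (Finset.notMem_empty y)⟩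
  | insert y Y hy ih =>
    obtain ⟨g1, hg1, hg2⟩ := ih fun z hz => hY z (Finset.mem_insert_of_mem hz)
    obtain ⟨g2, hg3, hg4⟩ := h (A ∪ Y.image g1) (g1 y) Z (by
      intro hmem
      rcases Finset.mem_union.1 hmem with h1 | h1
      · have h2 : g1 (g1 y) = g1 y := hg1 _ h1
        have h3 : g1 y = y := g1.injective h2
        rw [h3] at h1
        exact hY y (Finset.mem_insert_self y Y) h1
      · obtain ⟨z, hz, hzy⟩ := Finset.mem_image.1 h1
        have h3 : z = y := g1.injective hzy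
        exact hy (h3 ▸ hz))
    refine ⟨g2.comp g1, fun a ha => ?_, fun z hz => ?_⟩
    · change g2 (g1 a) = a
      rw [hg1 a ha]
      exact hg3 a (Finset.mem_union_left _ ha)
    · change g2 (g1 z) ∉ Z
      rcases Finset.mem_insert.1 hz with rfl | hz
      · exact hg4
      · rw [hg3 _ (Finset.mem_union_right _ (Finset.mem_image_of_mem _ hz))]
        exact hg2 z hz

/-- an embedding of a finite structure in an ultrahomogeneous structure can be moved to any other by an
automorphism -/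
theorem move [L.IsRelational] (hM : L.IsUltrahomogeneous M) {A : Type w} [L.Structure A] [Finite A]
    (f g : A ↪[L] M) : ∃ u : M ≃[L] M, ∀ a, u (f a) = g a := by
  have hfg : f.toHom.range.FG :=
    Structure.FG.range Structure.FG.of_finite f.toHom
  obtain ⟨u, hu⟩ := hM f.toHom.range hfg (g.comp f.equivRange.symm.toEmbedding)
  refine ⟨u, fun a => ?_⟩
  have h1 := congrArg (fun e : f.toHom.range ↪[L] M => e (f.equivRange a)) hu
  simp only [Embedding.comp_apply] at h1
  have h2 : f.equivRange.symm.toEmbedding (f.equivRange a) = a := f.equivRange.symm_apply_apply a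
  rw [h2] at h1
  exact h1.symm

theorem strongAmalgamation [L.IsRelational] (hM : L.IsUltrahomogeneous M) (h : NA L M) :
    StrongAmalgamation (L.age M) := by
  classical
  rintro A B C f g ⟨hA, -⟩ ⟨hB, ⟨β⟩⟩ ⟨hC, ⟨γ⟩⟩
  have _ : Finite A := hA.finite
  have _ : Finite B := hB.finite
  have _ : Finite C := hC.finite
  obtain ⟨u, hu⟩ := move hM (β.comp f) (γ.comp g)
  let β' : B ↪[L] M := u.toEmbedding.comp β
  have hβ' : ∀ a, β' (f a) = γ (g a) := hu
  let X : Finset M := (Set.finite_range fun a => γ (g a)).toFinset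
  have hX : ∀ x, x ∈ X ↔ ∃ a, γ (g a) = x := by
    intro x
    simp [X]
  obtain ⟨v, hv1, hv2⟩ := h.multi X ((Set.finite_range β').toFinset)
    ((Set.finite_range γ).toFinset \ X) (fun y hy => (Finset.mem_sdiff.1 hy).2)
  let γ' : C ↪[L] M := v.toEmbedding.comp γ
  have hγ' : ∀ a, γ' (g a) = γ (g a) := fun a => hv1 _ ((hX _).2 ⟨a, rfl⟩)
  let D : L.Substructure M := β'.toHom.range ⊔ γ'.toHom.range
  let f' : B ↪[L] D := (Substructure.inclusion le_sup_left).comp β'.equivRange.toEmbedding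
  let g' : C ↪[L] D := (Substructure.inclusion le_sup_right).comp γ'.equivRange.toEmbedding
  have hf' : ∀ b, (f' b : M) = β' b := fun b => rfl
  have hg' : ∀ c, (g' c : M) = γ' c := fun c => rfl
  refine ⟨⟨D, inferInstance⟩, f', g', ⟨?_, ⟨D.subtype⟩⟩, ?_, ?_⟩
  · exact (Substructure.fg_iff_structure_fg _).1
      ((hB.range β'.toHom).sup (hC.range γ'.toHom))
  · ext a
    change (f' (f a) : M) = (g' (g a) : M)
    rw [hf', hg', hβ', hγ']
  · ext x
    constructor
    · rintro ⟨⟨b, hb⟩, ⟨c, hc⟩⟩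
      have h1 : β' b = γ' c := by rw [← hf', ← hg', hb, hc]
      have h2 : γ c ∈ X := by
        by_contra hcon
        have h3 := hv2 (γ c) (Finset.mem_sdiff.2 ⟨by simp, hcon⟩)
        apply h3
        simp only [Set.Finite.mem_toFinset, Set.mem_range]
        exact ⟨b, h1⟩
      obtain ⟨a, ha⟩ := (hX _).1 h2
      have h3 : g a = c := γ.injective ha
      have h4 : f a = b := by
        apply β'.injective
        rw [hβ', h1, ← h3, hγ']
      exact ⟨a, by rw [← hb, ← h4]; rfl⟩
    · rintro ⟨a, rfl⟩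
      refine ⟨⟨f a, rfl⟩, ⟨g a, ?_⟩⟩
      apply Subtype.ext
      change (g' (g a) : M) = (f' (f a) : M)
      rw [hf', hg', hβ', hγ']

theorem StrongAmalgamation.na [L.IsRelational] (hM : L.IsUltrahomogeneous M)
    (h : StrongAmalgamation (L.age M)) : NA L M := by
  classical
  intro A y Z hy
  let SA : L.Substructure M := ⟨(A : Set M), fun {n} fn => isEmptyElim fn⟩
  let SB : L.Substructure M := ⟨((A ∪ Z : Finset M) : Set M), fun {n} fn => isEmptyElim fn⟩
  let SC : L.Substructure M := ⟨((insert y A : Finset M) : Set M), fun {n} fn => isEmptyElim fn⟩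
  have _ : Finite SA := A.finite_toSet.to_subtype
  have _ : Finite SB := (A ∪ Z).finite_toSet.to_subtype
  have _ : Finite SC := (insert y A).finite_toSet.to_subtype
  have hAB : SA ≤ SB := by
    intro x hx
    change x ∈ ((A ∪ Z : Finset M) : Set M)
    exact Finset.mem_coe.2 (Finset.mem_union_left _ (Finset.mem_coe.1 hx))
  have hAC : SA ≤ SC := by
    intro x hx
    change x ∈ ((insert y A : Finset M) : Set M)
    exact Finset.mem_coe.2 (Finset.mem_insert_of_mem (Finset.mem_coe.1 hx))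
  have hage : ∀ S : L.Substructure M, Finite S → (⟨S, inferInstance⟩ : Bundled.{w} L.Structure) ∈
      L.age M := fun S _ => ⟨Structure.FG.of_finite, ⟨S.subtype⟩⟩
  obtain ⟨D, f', g', ⟨-, ⟨δ⟩⟩, h1, h2⟩ := h ⟨SA, inferInstance⟩ ⟨SB, inferInstance⟩
    ⟨SC, inferInstance⟩ (Substructure.inclusion hAB) (Substructure.inclusion hAC) (hage _ ‹_›)
    (hage _ ‹_›) (hage _ ‹_›)
  obtain ⟨u, hu⟩ := move hM (δ.comp f') SB.subtype
  obtain ⟨g, hg⟩ := move hM SC.subtype ((u.toEmbedding.comp δ).comp g')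
  refine ⟨g, fun a ha => ?_, fun hz => ?_⟩
  · have h3 := hg ⟨a, Finset.mem_coe.2 (Finset.mem_insert_of_mem ha)⟩
    change g a = u (δ (g' ⟨a, _⟩)) at h3
    rw [h3]
    have h4 := congrArg (fun e : SA ↪[L] D => e ⟨a, ha⟩) h1
    change f' ⟨a, _⟩ = g' ⟨a, _⟩ at h4
    have h5 := hu ⟨a, Finset.mem_coe.2 (Finset.mem_union_left _ ha)⟩
    change u (δ (f' ⟨a, _⟩)) = a at h5
    rw [← h4]
    exact h5
  · have hyC : y ∈ SC := Finset.mem_coe.2 (Finset.mem_insert_self y A)
    have h3 := hg ⟨y, hyC⟩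
    change g y = u (δ (g' ⟨y, _⟩)) at h3
    have hzB : g y ∈ SB := Finset.mem_coe.2 (Finset.mem_union_right _ hz)
    have h5 := hu ⟨g y, hzB⟩
    change u (δ (f' ⟨g y, _⟩)) = g y at h5
    have h6 : f' ⟨g y, hzB⟩ = g' ⟨y, hyC⟩ := δ.injective (u.injective (h5.trans h3))
    have h7 : g' ⟨y, hyC⟩ ∈ Set.range f' ∩ Set.range g' := ⟨⟨_, h6⟩, ⟨_, rfl⟩⟩
    rw [h2] at h7
    obtain ⟨a, ha⟩ := h7
    have h8 := congrArg (fun e : SA ↪[L] D => e a) h1
    change (f'.comp _) a = (g'.comp _) a at h8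
    have h9 : g' (Substructure.inclusion hAC a) = g' ⟨y, hyC⟩ := by
      rw [← ha]
      exact h8.symm
    have h10 := congrArg (fun z : SC => (z : M)) (g'.injective h9)
    change (a : M) = y at h10
    have h11 : (a : M) ∈ A := Finset.mem_coe.1 a.2
    rw [h10] at h11
    exact hy h11

end Pool.Agent.X225.St
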